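import Pool.Graph.R_pool_sql_team_seeded_1acbe0a2.Y578.Spl.Charge

set_option autoImplicit false

/-!
# Splaying against executions whose rotations lift few keys on average

`Tr`, `keys`, `IsBST`, `dep`, `size` and `costSplay` are those of `Pool.Agent.H581R2.SplayDef`, and
`LRot T T' s` is that of `Pool.Agent.Y578.Spl.Charge`: the tree `T'` arises from `T` by one rotation,
performed anywhere, and `s` keys are lifted by it (one plus the size of the subtree which goes up with
the rotated node).

`ExecL T X c R L`: an execution in the sense of the question (a request costs one plus the depth of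
its key, rotations are performed anywhere at the cost of one each), of cost `c`, with `R` rotations,
which lift `L` keys in total.

Splaying costs at most `15 (c - R + L)`, with no additive term. So it costs at most `15 K c` if the
rotations lift at most `K` keys on average.
-/

namespace Pool.Agent.Results.MP_c42954_lc.LiftedKeys

open Pool.Agent.H581R2.Splay Pool.Agent.Y578.Spl

/-- `RotL T T' e l`: the tree `T'` arises from `T` by `e` rotations, performed anywhere, which lift
`l` keys in total. -/
inductive RotL : Tr → Tr → ℕ → ℕ → Prop
  | refl (T : Tr) : RotL T T 0 0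
  | step (T T' T'' : Tr) (s e l : ℕ) : LRot T T' s → RotL T' T'' e l → RotL T T'' (1 + e) (s + l)

/-- `ExecL T X c R L`: an execution of cost `c` for the requests `X` with initial tree `T`: a request
costs one plus the depth of its key, and after it any number of rotations are performed anywhere at a
cost of one each; `R` is the number of the rotations and `L` the number of keys that they lift,
summed over the rotations. -/
inductive ExecL : Tr → List ℕ → ℕ → ℕ → ℕ → Prop
  | nil (T : Tr) : ExecL T [] 0 0 0
  | cons (T T' : Tr) (x : ℕ) (X : List ℕ) (e l c R L : ℕ) :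
      RotL T T' e l → ExecL T' X c R L → ExecL T (x :: X) (1 + dep x T + e + c) (e + R) (l + L)

theorem rots_of {T T' : Tr} {e l : ℕ} (h : RotL T T' e l) : LRots T T' l := by
  induction h with
  | refl T => exact LRots.refl T
  | step T T' T'' s e l h1 _ ih => exact LRots.step T T' T'' s l h1 ih

theorem exec_of {T : Tr} {X : List ℕ} {c R L : ℕ} (h : ExecL T X c R L) :
    ∃ c', LExec T X c' ∧ c' + R = c + L := by
  induction h with
  | nil T => exact ⟨0, LExec.nil T, rfl⟩
  | cons T T' x X e l c R L h1 _ ih =>
    obtain ⟨c', h2, h3⟩ := ih
    exact ⟨1 + dep x T + l + c', LExec.cons T T' x X l c' (rots_of h1) h2, by omega⟩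

theorem rot_le {T : Tr} {X : List ℕ} {c R L : ℕ} (h : ExecL T X c R L) : R ≤ c := by
  induction h with
  | nil T => exact le_rfl
  | cons T T' x X e l c R L _ _ ih => omega

/-- **Splaying costs at most `15 (c - R + L)`; at most `15 K c` if the rotations lift at most `K`
keys on average.** -/
theorem result {T : Tr} {X : List ℕ} (hb : IsBST T) (hX : ∀ x ∈ X, x ∈ keys T) {c R L : ℕ}
    (h : ExecL T X c R L) :
    R ≤ c ∧ costSplay T X ≤ 15 * (c - R + L) ∧
      ∀ K : ℕ, 1 ≤ K → L ≤ K * R → costSplay T X ≤ 15 * K * c := by
  obtain ⟨c', h1, h2⟩ := exec_of h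
  have hR := rot_le h
  have h3 := cost_lexec hb hX h1
  have h4 : c' = c - R + L := by omega
  rw [h4] at h3
  refine ⟨hR, h3, fun K hK hL => h3.trans ?_⟩
  have h5 : c - R ≤ K * (c - R) := Nat.le_mul_of_pos_left _ hK
  have h6 : K * (c - R) + K * R = K * c := by
    rw [← Nat.mul_add, Nat.sub_add_cancel hR]
  calc 15 * (c - R + L) ≤ 15 * (K * (c - R) + K * R) := Nat.mul_le_mul_left _ (by omega)
    _ = 15 * K * c := by rw [h6, Nat.mul_assoc]

end Pool.Agent.Results.MP_c42954_lc.LiftedKeys
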